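import Pool.Agent.H29.NF.A
import Pool.Agent.H91.T1.EXDA
import Pool.Agent.H88.NF.SEMAN

/-!
# NF: EXDN (existence of the data)
-/

set_option autoImplicit false

namespace Pool.NF

open Polynomial NumberField IsDedekindDomain Pool.HYP Pool.TOW Pool.AVS Pool.T1

namespace EXDN70

variable (K : Type) [Field K] [NumberField K]

lemma fin_quot (I : Ideal (𝓞 K)) (hI : I ≠ ⊥) : Finite (𝓞 K ⧸ I) :=
  Ideal.finiteQuotientOfFreeOfNeBot I hI

lemma inf_primes : Infinite (HeightOneSpectrum (𝓞 K)) := by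
  obtain ⟨-, h2, -, h4⟩ := seman K
  choose P hP using h2
  have hinj : Function.Injective fun p : {p : ℕ // p.Prime} => P p.1 p.2 := by
    rintro ⟨p, hp⟩ ⟨q, hq⟩ h
    have h' : P p hp = P q hq := h
    have h5 := (h4 p hp (P p hp) (hP p hp)).2 (q : ℤ)
    have h6 : ((q : ℤ) : 𝓞 K) ∈ (P p hp).asIdeal := by
      rw [h']
      have := hP q hq
      rw [Int.cast_natCast]
      exact this
    have h7 : (p : ℤ) ∣ (q : ℤ) := h5.1 h6
    have h8 : p ∣ q := Int.natCast_dvd_natCast.1 h7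
    exact Subtype.ext ((Nat.prime_dvd_prime_iff_eq hp hq).1 h8)
  have : Infinite {p : ℕ // p.Prime} := Nat.infinite_setOfPred_prime.to_subtype
  exact Infinite.of_injective _ hinj

end EXDN70

open EXDN70 Exd91 in
/-- **EXDN**. -/
theorem exdn (hPRZ : PRZStmt) : EXDNStmt := by
  classical
  intro K _ _ T' hT' k b
  have hfq : ∀ I : Ideal (𝓞 K), I ≠ ⊥ → Finite (𝓞 K ⧸ I) := fin_quot K
  have h2 : ∀ P : HeightOneSpectrum (𝓞 K), ∃ γ : (𝓞 K)[X], OkP 2 P.asIdeal γ :=
    fun P => exLiftP hfq 2 (by norm_num) P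
  have h3 : ∀ P : HeightOneSpectrum (𝓞 K), ∃ γ : (𝓞 K)[X], OkP 3 P.asIdeal γ :=
    fun P => exLiftP hfq 3 (by norm_num) P
  choose γ hγ using h2
  choose ρ hρ using h3
  have hsm : {P : HeightOneSpectrum (𝓞 K) | Nm P ≤ b}.Finite := by
    obtain ⟨x₀, hx₀⟩ := hPRZ K 1 one_pos
    refine (hx₀ (max x₀ b) (le_max_left _ _)).1.subset fun P hP => ?_
    have h4 : Nm P ≤ b := hP
    have h5 : (Ni P.asIdeal : ℝ) ≤ b := by
      have : Ni P.asIdeal = Nm P := rfl
      rw [this]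
      exact_mod_cast h4
    exact h5.trans (le_max_right _ _)
  have hinf : Infinite (HeightOneSpectrum (𝓞 K)) := inf_primes K
  have h4 : ∀ n : ℕ, ∃ T : Finset (HeightOneSpectrum (𝓞 K)), T.card = n ∧
      ∀ P ∈ T, b < Nm P ∧ P ∉ T' := by
    intro n
    induction n with
    | zero => exact ⟨∅, Finset.card_empty, fun P hP => absurd hP (Finset.notMem_empty P)⟩
    | succ n ih =>
      obtain ⟨T, hTc, hT⟩ := ih
      obtain ⟨P, hP⟩ := Infinite.exists_notMem_finset (T ∪ T' ∪ hsm.toFinset)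
      simp only [Finset.mem_union, Set.Finite.mem_toFinset, Set.mem_ofPred_eq, not_or,
        not_le] at hP
      refine ⟨insert P T, ?_, ?_⟩
      · rw [Finset.card_insert_of_notMem hP.1.1, hTc]
      · intro P' hP'
        rw [Finset.mem_insert] at hP'
        rcases hP' with h | h
        · rw [h]; exact ⟨hP.2, hP.1.2⟩
        · exact hT P' h
  obtain ⟨T, hTc, hT⟩ := h4 k
  refine ⟨⟨T, T', fun _ => 0, γ, ρ⟩, ⟨?_, fun P _ => hγ P, fun P _ => hρ P, hT'⟩, rfl, hTc,
    fun P hP => (hT P hP).1⟩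
  exact Finset.disjoint_left.2 fun P hP => (hT P hP).2

end Pool.NF
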