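import Pool.Agent.H43.T1.GDU
import Pool.Agent.H2.NF.S3

/-!
# NF: GDUN (a good prime, self-dual lattices)
-/

set_option autoImplicit false

namespace Pool.NF

open Polynomial Matrix Pool.HYP Pool.TOW Pool.AVS Pool.T1 Pool.T1.GDU43 IsDedekindDomain
  NumberField

namespace GDUN70

lemma iz_mul {p : ℕ} (hp : p.Prime) {x y : ℚ} (hx : x ∈ IZ p) (hy : y ∈ IZ p) :
    x * y ∈ IZ p := by
  intro h
  have h1 : p ∣ x.den * y.den := h.trans (Rat.mul_den_dvd x y)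
  rcases hp.dvd_mul.1 h1 with h2 | h2
  · exact hx h2
  · exact hy h2

lemma iz_one {p : ℕ} (hp : p.Prime) : (1 : ℚ) ∈ IZ p := by
  intro h
  rw [Rat.den_one] at h
  exact hp.one_lt.ne' (Nat.dvd_one.1 h)

lemma iz_pow {p : ℕ} (hp : p.Prime) {x : ℚ} (hx : x ∈ IZ p) (N : ℕ) : x ^ N ∈ IZ p := by
  induction N with
  | zero => rw [pow_zero]; exact iz_one hp
  | succ N ih => rw [pow_succ]; exact iz_mul hp ih hx

end GDUN70

open GDUN70 in
theorem gdun (hT : TRFStmt) (hW : WAPStmt) (hB : SEMBNStmt) (_hC : SEMCNStmt)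
    (hA : SEMANStmt) : GDUNStmt := by
  intro K _ _ n N ω p hp hgood A hSD
  classical
  obtain ⟨hA1, hA2, -, -⟩ := hA K
  have hp0 : (p : 𝓞 K) ≠ 0 := Nat.cast_ne_zero.2 hp.ne_zero
  have hfin : {P : HeightOneSpectrum (𝓞 K) | Abv p P}.Finite := hA1 p hp.ne_zero
  have hk : ∀ P : HeightOneSpectrum (𝓞 K), ∃ k : Matrix (Fin N) (Fin N) K, k.det ≠ 0 ∧
      (Abv p P → GIn (RP K P) (kᵀ * A * k)) := by
    intro P
    by_cases hP : Abv p P
    · obtain ⟨k, h1, h2⟩ := hSD P hP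
      exact ⟨k, h1, fun _ => h2⟩
    · exact ⟨1, by rw [Matrix.det_one]; exact one_ne_zero, fun h => (hP h).elim⟩
  choose k hk0 hkA using hk
  obtain ⟨h, hh0, hh⟩ := (hW (𝓞 K) K hfin.toFinset (algebraMap (𝓞 K) K (p : 𝓞 K))
    (alg_ne hp0)).2 N k fun P _ => hk0 P
  have hG : ∀ P : HeightOneSpectrum (𝓞 K), Abv p P → GIn (RP K P) (hᵀ * A * h) := by
    intro P hP
    exact gin_near (α := (p : 𝓞 K)) hP hp0 A (k P) h (hk0 P) (hkA P hP)
      (hh P (hfin.mem_toFinset.2 hP))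
  set B := hᵀ * A * h with hBdef
  have hBI : ∀ i j, B i j ∈ IS K p := fun i j P hP => (hG P hP).1 i j
  have hω : ∀ i, ∀ P : HeightOneSpectrum (𝓞 K), ω i ∈ RP K P := fun i P =>
    rp_alg (⟨ω i, hgood.1 i⟩ : 𝓞 K)
  obtain ⟨hT1, hT2, hT3, -⟩ := hT ℚ K n N ω
  refine ⟨lmm ω h, ?_, ?_⟩
  · rw [hT3]
    exact Algebra.norm_ne_zero_iff.2 hh0
  rw [hT1]
  obtain ⟨P0, hP0⟩ := hA2 p hp
  have hN : B.det ≠ 0 := (hG P0 hP0).2.1
  refine ⟨fun q q' => ?_, ?_⟩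
  · refine (hB K p hp (ω q.2 * ω q'.2 * B q.1 q'.1) ?_).2.1
    intro P hP
    exact rp_mul (rp_mul (hω _ P) (hω _ P)) (hBI _ _ P hP)
  · rw [hT2]
    have hc : ∀ x y : ℚ, x ∈ IZ p → y ∈ IZ p → x * y ∈ IZ p := fun x y => iz_mul hp
    have h1 : UI (IZ p) ((trd ω).det ^ N) := by
      refine ⟨pow_ne_zero _ hgood.2.1, iz_pow hp hgood.2.2.1 N, ?_⟩
      rw [← inv_pow]
      exact iz_pow hp hgood.2.2.2 N
    refine ui_mul hc h1 ⟨Algebra.norm_ne_zero_iff.2 hN, ?_, ?_⟩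
    · exact (hB K p hp B.det fun P hP => (hG P hP).2.2.1).2.2
    · have e : (Algebra.norm ℚ B.det)⁻¹ = Algebra.norm ℚ (B.det)⁻¹ := by
        symm
        apply eq_inv_of_mul_eq_one_left
        rw [← map_mul, inv_mul_cancel₀ hN, map_one]
      rw [e]
      exact (hB K p hp (B.det)⁻¹ fun P hP => (hG P hP).2.2.2).2.2

end Pool.NF
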