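import Pool.Agent.H66.NF.U

/-!
# NF: KPH (the classes of the points are additive)
-/

set_option autoImplicit false

namespace Pool.NF

open Polynomial Matrix NumberField IsDedekindDomain Pool.HYP Pool.TOW Pool.AVS Pool.T1 Pool.PRK

/-- **KPH.** -/
theorem kph : KPHStmt := by
  intro L _ _ h2 a b c P Q
  rcases P with _ | ⟨x₁, y₁, h₁⟩
  · refine ⟨kp a b c Q, ?_⟩
    have e : (WeierstrassCurve.Affine.Point.zero : (WC a b c).toAffine.Point) + Q = Q :=
      zero_add Q
    rw [e]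
    have e2 : kp a b c (WeierstrassCurve.Affine.Point.zero) = 1 := rfl
    rw [e2, one_mul, ← pow_two, sub_self]
    exact dvd_zero _
  rcases Q with _ | ⟨x₂, y₂, h₂⟩
  · refine ⟨kp a b c (WeierstrassCurve.Affine.Point.some x₁ y₁ h₁), ?_⟩
    have e : (WeierstrassCurve.Affine.Point.some x₁ y₁ h₁ : (WC a b c).toAffine.Point) +
        WeierstrassCurve.Affine.Point.zero = WeierstrassCurve.Affine.Point.some x₁ y₁ h₁ :=
      add_zero _
    rw [e]
    have e2 : kp a b c (WeierstrassCurve.Affine.Point.zero) = 1 := rfl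
    rw [e2, mul_one, ← pow_two, sub_self]
    exact dvd_zero _
  by_cases hxy : x₁ = x₂ ∧ y₁ = (WC a b c).toAffine.negY x₂ y₂
  · rw [WeierstrassCurve.Affine.Point.add_of_Y_eq hxy.1 hxy.2]
    refine ⟨C x₁ - X, ?_⟩
    have e2 : kp a b c 0 = 1 := rfl
    have e3 : kp a b c (WeierstrassCurve.Affine.Point.some x₁ y₁ h₁) = C x₁ - X := rfl
    have e4 : kp a b c (WeierstrassCurve.Affine.Point.some x₂ y₂ h₂) = C x₂ - X := rfl
    rw [e2, e3, e4, mul_one, ← hxy.1, ← pow_two, sub_self]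
    exact dvd_zero _
  · rw [WeierstrassCurve.Affine.Point.add_some hxy]
    have e3 : kp a b c (WeierstrassCurve.Affine.Point.some x₁ y₁ h₁) = C x₁ - X := rfl
    have e4 : kp a b c (WeierstrassCurve.Affine.Point.some x₂ y₂ h₂) = C x₂ - X := rfl
    obtain ⟨ℓ, hℓ⟩ : ∃ ℓ, ℓ = (WC a b c).toAffine.slope x₁ x₂ y₁ y₂ := ⟨_, rfl⟩
    have h3 := WeierstrassCurve.Affine.addPolynomial_slope h₁.1 h₂.1 hxy
    have e5 : kp a b c (WeierstrassCurve.Affine.Point.some _ _
        (WeierstrassCurve.Affine.nonsingular_add h₁ h₂ hxy)) =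
        C ((WC a b c).toAffine.addX x₁ x₂ ((WC a b c).toAffine.slope x₁ x₂ y₁ y₂)) - X := rfl
    rw [e3, e4, e5]
    rw [← hℓ] at h3 ⊢
    refine ⟨C ℓ * (X - C x₁) + C y₁, -1, ?_⟩
    have h4 : (WC a b c).toAffine.addPolynomial x₁ y₁ ℓ =
        (C ℓ * (X - C x₁) + C y₁) ^ 2 - (X ^ 3 + C a * X ^ 2 + C b * X + C c) := by
      rw [WeierstrassCurve.Affine.addPolynomial, WeierstrassCurve.Affine.linePolynomial,
        WeierstrassCurve.Affine.polynomial]
      simp only [WC, Polynomial.eval_sub, Polynomial.eval_pow, Polynomial.eval_X,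
        Polynomial.eval_C, C_0, zero_mul, add_zero]
    rw [h4] at h3
    linear_combination -h3

end Pool.NF
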